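import Pool.Agent.H82.NET.Stmts

/-!
# Board `net`, row SAM: the boundary of the ribbon of a tree is one closed curve
-/

set_option autoImplicit false

namespace Pool.NET

theorem sam_thm (hELB : ELB_S) : SAM_S := by
  classical
  intro N h u hfin hHN hUN hTr D hD
  have nNW : ∀ v ∈ N, ((v, Kd.NW) ∈ D ↔ nx h u (v, Kd.NW) ∈ D) := fun v hv => hD (v, Kd.NW) hv
  have nSE : ∀ v ∈ N, ((v, Kd.SE) ∈ D ↔ nx h u (v, Kd.SE) ∈ D) := fun v hv => hD (v, Kd.SE) hv
  have nR : ∀ v ∈ N, ¬ h v → ((v, Kd.R) ∈ D ↔ upV u v ∈ D) :=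
    fun v hv hh => hD (v, Kd.R) ⟨hv, hh⟩
  have nT : ∀ v ∈ N, ¬ u v → ((v, Kd.T) ∈ D ↔ (v, Kd.NW) ∈ D) :=
    fun v hv hh => hD (v, Kd.T) ⟨hv, hh⟩
  have nL : ∀ v ∈ N, ¬ h (v.1 - 1, v.2) → ((v, Kd.L) ∈ D ↔ dnV u v ∈ D) :=
    fun v hv hh => hD (v, Kd.L) ⟨hv, hh⟩
  have nB : ∀ v ∈ N, ¬ u (v.1, v.2 - 1) → ((v, Kd.B) ∈ D ↔ (v, Kd.SE) ∈ D) :=
    fun v hv hh => hD (v, Kd.B) ⟨hv, hh⟩
  have key := hELB N h u hfin hHN hUN hTr (fun v => (v, Kd.NW) ∈ D) (fun v => upV u v ∈ D)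
    (fun v => dnV u v ∈ D) (fun v => (v, Kd.SE) ∈ D)
    (by
      intro v hv hh
      obtain ⟨_, h2⟩ := hHN v hh
      constructor
      · have e : nx h u ((v.1 + 1, v.2), Kd.NW) = upV u v := by
          simp only [nx, add_sub_cancel_right, Prod.mk.eta, hh, if_true]
        have e1 := nNW _ h2
        rw [e] at e1
        exact e1.symm
      · have e : nx h u (v, Kd.SE) = dnV u (v.1 + 1, v.2) := by
          simp only [nx, hh, if_true]
        have e1 := nSE _ hv
        rw [e] at e1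
        exact e1)
    (by
      intro v hv hh
      have e : nx h u (v, Kd.SE) = (v, Kd.R) := by
        simp only [nx, hh, if_false]
      have e1 := nSE _ hv
      rw [e] at e1
      exact (e1.trans (nR v hv hh)).symm)
    (by
      intro v hv hh
      have e : nx h u (v, Kd.NW) = (v, Kd.L) := by
        simp only [nx, hh, if_false]
      have e1 := nNW _ hv
      rw [e] at e1
      exact e1.trans (nL v hv hh))
    (by
      intro v hv hh
      constructor
      · have e : upV u v = ((v.1, v.2 + 1), Kd.SE) := by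
          simp only [upV, hh, if_true]
        show upV u v ∈ D ↔ ((v.1, v.2 + 1), Kd.SE) ∈ D
        rw [e]
      · have e : dnV u (v.1, v.2 + 1) = (v, Kd.NW) := by
          simp only [dnV, add_sub_cancel_right, Prod.mk.eta, hh, if_true]
        show (v, Kd.NW) ∈ D ↔ dnV u (v.1, v.2 + 1) ∈ D
        rw [e])
    (by
      intro v hv hh
      have e : upV u v = (v, Kd.T) := by
        simp only [upV, hh, if_false]
      show upV u v ∈ D ↔ (v, Kd.NW) ∈ D
      rw [e]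
      exact nT v hv hh)
    (by
      intro v hv hh
      have e : dnV u v = (v, Kd.B) := by
        simp only [dnV, hh, if_false]
      show dnV u v ∈ D ↔ (v, Kd.SE) ∈ D
      rw [e]
      exact nB v hv hh)
  have all : ∀ a, OK N h u a → a.1 ∈ N ∧ ∀ w ∈ N, (a ∈ D ↔ (w, Kd.NW) ∈ D) := by
    rintro ⟨v, k⟩ ha
    cases k with
    | NW => exact ⟨ha, fun w hw => (key v ha w hw).1⟩
    | SE => exact ⟨ha, fun w hw => (key v ha w hw).2.2.2⟩
    | R => exact ⟨ha.1, fun w hw => (nR v ha.1 ha.2).trans (key v ha.1 w hw).2.1⟩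
    | T => exact ⟨ha.1, fun w hw => (nT v ha.1 ha.2).trans (key v ha.1 w hw).1⟩
    | L => exact ⟨ha.1, fun w hw => (nL v ha.1 ha.2).trans (key v ha.1 w hw).2.2.1⟩
    | B => exact ⟨ha.1, fun w hw => (nB v ha.1 ha.2).trans (key v ha.1 w hw).2.2.2⟩
  intro a b ha hb
  obtain ⟨haN, haD⟩ := all a ha
  obtain ⟨_, hbD⟩ := all b hb
  exact (haD a.1 haN).trans (hbD a.1 haN).symm

end Pool.NET
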